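import Pool.Agent.Helper93.WP.St

set_option autoImplicit false

/-!
# WP, module ZE: the zero estimate at a root of `X^2 - 4n`
-/

namespace Pool.Agent.Helper15.WP

open Polynomial Pool.Agent.Helper93.WP

section wt

variable {k : Type*} [Field k]

open scoped Classical in
/-- degree plus one, zero for the zero polynomial -/
noncomputable def wt (P : k[X]) : ℕ := if P = 0 then 0 else P.natDegree + 1

theorem wt_zero : wt (0 : k[X]) = 0 := by simp [wt]

theorem wt_ne {P : k[X]} (h : P ≠ 0) : wt P = P.natDegree + 1 := by simp [wt, h]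

theorem wt_le {P : k[X]} {b : ℕ} (h : P.natDegree ≤ b) : wt P ≤ b + 1 := by
  by_cases h0 : P = 0
  · rw [h0, wt_zero]; omega
  · rw [wt_ne h0]; omega

theorem wt_eq_zero {P : k[X]} (h : wt P = 0) : P = 0 := by
  by_contra h0
  rw [wt_ne h0] at h
  omega

theorem wt_congr {P Q : k[X]} (h : P.degree = Q.degree) : wt P = wt Q := by
  by_cases h0 : P = 0
  · have : Q = 0 := by
      rw [h0, degree_zero] at h
      exact degree_eq_bot.1 h.symm
    rw [h0, this]
  · have h1 : Q ≠ 0 := by
      intro h1
      rw [h1, degree_zero] at h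
      exact h0 (degree_eq_bot.1 h)
    rw [wt_ne h0, wt_ne h1, natDegree_eq_of_degree_eq h]

theorem step_same {a b : k} (ha : a ≠ 0) (P : k[X]) :
    wt (C a * P + C b * derivative P) = wt P := by
  by_cases h0 : P = 0
  · simp [h0]
  · apply wt_congr
    have h1 : (C a * P).degree = P.degree := degree_C_mul ha
    rw [degree_add_eq_left_of_degree_lt, h1]
    rw [h1]
    exact lt_of_le_of_lt (by
      by_cases hb : b = 0
      · rw [hb, C_0, zero_mul, degree_zero]; exact bot_le
      · rw [degree_C_mul hb]) (degree_derivative_lt h0)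

theorem step_down (p : ℕ) [CharP k p] {b : k} (hb : b ≠ 0) {P : k[X]} (h0 : P ≠ 0)
    (hp : P.natDegree < p) : wt (C b * derivative P) + 1 = wt P := by
  rcases Nat.eq_zero_or_pos P.natDegree with hd | hd
  · obtain ⟨c, rfl⟩ := natDegree_eq_zero.1 hd
    rw [derivative_C, mul_zero, wt_zero, wt_ne h0, natDegree_C]
  · obtain ⟨d, hd'⟩ : ∃ d, P.natDegree = d + 1 := ⟨P.natDegree - 1, by omega⟩
    have hc : (derivative P).coeff d ≠ 0 := by
      rw [coeff_derivative]
      apply mul_ne_zero
      · rw [← hd']
        exact leadingCoeff_ne_zero.2 h0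
      · have : ((d + 1 : ℕ) : k) ≠ 0 := by
          rw [Ne, CharP.cast_eq_zero_iff k p]
          intro h
          have := Nat.le_of_dvd (by omega) h
          omega
        exact_mod_cast this
    have hne : derivative P ≠ 0 := by
      intro h
      rw [h, coeff_zero] at hc
      exact hc rfl
    have hdeg : (derivative P).natDegree = d := by
      apply le_antisymm
      · have := natDegree_derivative_le P
        omega
      · exact le_natDegree_of_ne_zero hc
    have hne' : C b * derivative P ≠ 0 := mul_ne_zero (by simpa using hb) hne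
    rw [wt_ne hne', wt_ne h0, natDegree_C_mul hb, hdeg, hd']

/-- the derivative of a polynomial divisible by `x^(r+1)` is divisible by `x^r` -/
theorem dvd_der {x f : k[X]} {r : ℕ} (h : x ^ (r + 1) ∣ f) : x ^ r ∣ derivative f := by
  obtain ⟨q, rfl⟩ := h
  rw [derivative_mul, derivative_pow]
  refine dvd_add ?_ ?_
  · refine Dvd.intro (C ((r + 1 : ℕ) : k) * derivative x * q) ?_
    simp only [Nat.add_sub_cancel]
    ring
  · exact Dvd.intro (x * derivative q) (by ring)

/-- the evaluation map of the formal side -/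
noncomputable def ev (M : ℕ) (U D : k[X]) (P : ℕ → k[X]) : k[X] :=
  ∑ i ∈ Finset.range M, U ^ i * (P i).comp D

/-- The key estimate. -/
theorem key (p m M : ℕ) [Fact p.Prime] [CharP k p] (hM : M ≤ p) (tau kap : k) (hkap : kap ≠ 0)
    (S U D : k[X]) (hU : (X - C tau) ^ m ∣ S * derivative U - C kap * U)
    (hD : (X - C tau) ^ m ∣ S * derivative D - C (kap ^ 2)) (hUt : U.eval tau ≠ 0) :
    ∀ N : ℕ, ∀ P : ℕ → k[X], (∀ i < M, (P i).natDegree < p) →
      ∑ i ∈ Finset.range M, wt (P i) = N → N ≤ m + 1 → (X - C tau) ^ N ∣ ev M U D P → N = 0 := by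
  intro N
  induction N with
  | zero => intros; rfl
  | succ N ih =>
    intro P hdeg hsum hN hdvd
    exfalso
    -- an index with nonzero polynomial
    obtain ⟨i0, hi0, hP0⟩ : ∃ i0 < M, P i0 ≠ 0 := by
      by_contra hcon
      push Not at hcon
      have : ∑ i ∈ Finset.range M, wt (P i) = 0 := by
        apply Finset.sum_eq_zero
        intro i hi
        rw [hcon i (Finset.mem_range.1 hi), wt_zero]
      omega
    set P' : ℕ → k[X] := fun i => C (((i : k) - (i0 : k)) * kap) * P i + C (kap ^ 2) * derivative (P i)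
      with hP'
    have hk2 : kap ^ 2 ≠ 0 := pow_ne_zero 2 hkap
    have hcast : ∀ i < M, i ≠ i0 → ((i : k) - (i0 : k)) * kap ≠ 0 := by
      intro i hi hne
      apply mul_ne_zero _ hkap
      rw [sub_ne_zero]
      intro h
      have h' := (CharP.cast_eq_iff_mod_eq k p).1 h
      rw [Nat.mod_eq_of_lt (by omega), Nat.mod_eq_of_lt (by omega)] at h'
      exact hne h'
    have hw : ∑ i ∈ Finset.range M, wt (P' i) = N := by
      have h1 : ∑ i ∈ (Finset.range M).erase i0, wt (P' i)
          = ∑ i ∈ (Finset.range M).erase i0, wt (P i) := by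
        apply Finset.sum_congr rfl
        intro i hi
        rw [Finset.mem_erase, Finset.mem_range] at hi
        exact step_same (hcast i hi.2 hi.1) (P i)
      have h2 : wt (P' i0) + 1 = wt (P i0) := by
        have : P' i0 = C (kap ^ 2) * derivative (P i0) := by
          simp [hP']
        rw [this]
        exact step_down p hk2 hP0 (hdeg i0 hi0)
      rw [← Finset.add_sum_erase _ _ (Finset.mem_range.2 hi0)] at hsum
      rw [← Finset.add_sum_erase _ _ (Finset.mem_range.2 hi0), h1]
      omega
    have hdeg' : ∀ i < M, (P' i).natDegree < p := by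
      intro i hi
      refine lt_of_le_of_lt ?_ (hdeg i hi)
      refine (natDegree_add_le _ _).trans (max_le ?_ ?_)
      · exact natDegree_C_mul_le _ _
      · exact (natDegree_C_mul_le _ _).trans
          ((natDegree_derivative_le _).trans (Nat.sub_le _ _))
    have hmain : (X - C tau) ^ N ∣ ev M U D P' := by
      have hNm : N ≤ m := by omega
      have h1 : (X - C tau) ^ N ∣ S * derivative (ev M U D P) - C ((i0 : k) * kap) * ev M U D P := by
        refine dvd_sub ?_ ?_
        · exact (dvd_der hdvd).mul_left _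
        · exact ((pow_dvd_pow _ (Nat.le_succ N)).trans hdvd).mul_left _
      have h2 : (X - C tau) ^ N ∣
          (S * derivative (ev M U D P) - C ((i0 : k) * kap) * ev M U D P) - ev M U D P' := by
        have e : (S * derivative (ev M U D P) - C ((i0 : k) * kap) * ev M U D P) - ev M U D P'
            = ∑ i ∈ Finset.range M, ((S * derivative U - C kap * U) *
                (C (i : k) * U ^ (i - 1) * (P i).comp D)
              + (S * derivative D - C (kap ^ 2)) * (U ^ i * (derivative (P i)).comp D)) := by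
          unfold ev
          rw [derivative_sum, Finset.mul_sum, Finset.mul_sum, ← Finset.sum_sub_distrib,
            ← Finset.sum_sub_distrib]
          apply Finset.sum_congr rfl
          intro i _
          rw [derivative_mul, derivative_pow, derivative_comp]
          have hUi : C (i : k) * U ^ (i - 1) * U = C (i : k) * U ^ i := by
            rcases Nat.eq_zero_or_pos i with h | h
            · subst h; simp
            · rw [mul_assoc, ← pow_succ, Nat.sub_add_cancel h]
          have hcomp : (P' i).comp D = (C (i : k) - C (i0 : k)) * C kap * (P i).comp D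
              + C kap ^ 2 * (derivative (P i)).comp D := by
            simp only [hP', add_comp, mul_comp, C_comp]
            simp only [C_mul, C_sub, C_pow]
          rw [hcomp]
          simp only [C_mul, C_pow]
          linear_combination (C kap * (P i).comp D) * hUi
        rw [e]
        apply Finset.dvd_sum
        intro i _
        refine dvd_add ?_ ?_
        · exact ((pow_dvd_pow _ hNm).trans hU).mul_right _
        · exact ((pow_dvd_pow _ hNm).trans hD).mul_right _
      have h3 := dvd_sub h1 h2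
      rwa [sub_sub_cancel] at h3
    have hN0 : N = 0 := ih P' hdeg' hw (by omega) hmain
    subst hN0
    -- now exactly one constant polynomial
    have hone : wt (P i0) = 1 ∧ ∀ i < M, i ≠ i0 → P i = 0 := by
      rw [← Finset.add_sum_erase _ _ (Finset.mem_range.2 hi0)] at hsum
      have h1 : 1 ≤ wt (P i0) := by rw [wt_ne hP0]; omega
      refine ⟨by omega, ?_⟩
      intro i hi hne
      have h2 : ∑ i ∈ (Finset.range M).erase i0, wt (P i) = 0 := by omega
      rw [Finset.sum_eq_zero_iff] at h2
      exact wt_eq_zero (h2 i (Finset.mem_erase.2 ⟨hne, Finset.mem_range.2 hi⟩))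
    have hev : ev M U D P = U ^ i0 * (P i0).comp D := by
      unfold ev
      apply Finset.sum_eq_single_of_mem _ (Finset.mem_range.2 hi0)
      intro i hi hne
      rw [hone.2 i (Finset.mem_range.1 hi) hne, zero_comp, mul_zero]
    have hd0 : (P i0).natDegree = 0 := by
      have := hone.1
      rw [wt_ne hP0] at this
      omega
    obtain ⟨c, hc⟩ := natDegree_eq_zero.1 hd0
    rw [hev, ← hc, C_comp, zero_add, pow_one, dvd_iff_isRoot, IsRoot, eval_mul, eval_pow,
      eval_C] at hdvd
    have hc0 : c ≠ 0 := by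
      intro h
      rw [h, C_0] at hc
      exact hP0 hc.symm
    exact mul_ne_zero (pow_ne_zero _ hUt) hc0 hdvd

end wt

theorem hZE : StZE := by
  intro k _ _ p _ _ hp2 n h tau D al be c hn htau htauh hIsD hK hc hdvd
  classical
  have hprime : p.Prime := Fact.out
  obtain ⟨m, hm⟩ : ∃ m, p = 2 * m + 1 := by
    rcases hprime.eq_two_or_odd' with h | h
    · exact absurd h hp2
    · obtain ⟨m, hm⟩ := h
      exact ⟨m, hm⟩
  have hm2 : (p - 1) / 2 = m := by omega
  rw [hm2] at hK
  have hpk : ((2 * m + 1 : ℕ) : k) = 0 := by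
    rw [← hm]; exact CharP.cast_eq_zero k p
  have hpk' : (2 : k) * (m : k) + 1 = 0 := by
    have := hpk
    push_cast at this
    exact this
  have h2k : (2 : k) ≠ 0 := by
    intro h2
    rw [h2, zero_mul, zero_add] at hpk'
    exact one_ne_zero hpk'
  have hm1 : ((m : k) + 1) * 2 = 1 := by linear_combination hpk'
  -- the value of delh at tau
  set e : k := (delh n h).eval tau with he
  have heval : e = (tau + h) ^ 2 - 4 * n := by
    simp [he, delh]
  have he0 : e ≠ 0 := by
    rw [heval]
    exact sub_ne_zero.2 htauh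
  obtain ⟨kap, hkap⟩ := IsAlgClosed.exists_pow_nat_eq (e ^ p) (n := 2) (by norm_num)
  have hkap0 : kap ≠ 0 := by
    intro h0
    rw [h0] at hkap
    have : e ^ p ≠ 0 := pow_ne_zero _ he0
    apply this
    rw [← hkap]; simp
  have hcc : C kap * C kap⁻¹ = (1 : k[X]) := by
    rw [← C_mul, mul_inv_cancel₀ hkap0, C_1]
  have hc2 : C (2 : k)⁻¹ * 2 = (1 : k[X]) := by
    have : (2 : k[X]) = C 2 := (map_ofNat C 2).symm
    rw [this, ← C_mul, inv_mul_cancel₀ h2k, C_1]
  -- delh^p
  obtain ⟨q, hq⟩ : ∃ q, delh n h ^ p = C (kap ^ 2) + (X - C tau) ^ p * q := by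
    have h1 : (X - C tau) ∣ delh n h - C e := X_sub_C_dvd_sub_C_eval
    obtain ⟨q, hq⟩ := pow_dvd_pow_of_dvd h1 p
    refine ⟨q, ?_⟩
    rw [sub_pow_char, ← C_pow, ← hkap] at hq
    linear_combination hq
  set S : k[X] := delh n h ^ (m + 1) with hS
  have hS' : derivative S = (X + C h) * delh n h ^ m := by
    rw [hS, derivative_pow]
    have h1 : derivative (delh n h) = 2 * (X + C h) := by
      simp only [delh, derivative_sub, derivative_pow, derivative_add, derivative_X, derivative_C]
      simp
      left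
      exact map_ofNat C 2
    have h2 : (C ((m + 1 : ℕ) : k)) * 2 = (1 : k[X]) := by
      have : (2 : k[X]) = C 2 := (map_ofNat C 2).symm
      rw [this, ← C_mul]
      push_cast
      rw [hm1, C_1]
    rw [h1, Nat.add_sub_cancel]
    linear_combination (delh n h ^ m * (X + C h)) * h2
  have hpow1 : delh n h ^ (m + 1) * delh n h ^ m = delh n h ^ p := by
    rw [← pow_add]; congr 1; omega
  have hpow2 : S ^ 2 = delh n h * delh n h ^ p := by
    rw [hS, ← pow_mul, ← pow_succ']; congr 1; omega
  set U : k[X] := C (2 : k)⁻¹ * (X + C h + C kap⁻¹ * S) with hUdef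
  have hmp : m ≤ p := by omega
  have hU : (X - C tau) ^ m ∣ S * derivative U - C kap * U := by
    refine (pow_dvd_pow _ hmp).trans
      (Dvd.intro (C (2 : k)⁻¹ * C kap⁻¹ * (X + C h) * q) ?_)
    have hU' : derivative U = C (2 : k)⁻¹ * (1 + C kap⁻¹ * ((X + C h) * delh n h ^ m)) := by
      rw [hUdef, derivative_C_mul, derivative_add, derivative_add, derivative_X, derivative_C,
        derivative_C_mul, hS', add_zero]
    rw [hU', hUdef]
    have hq' := hq
    rw [← hpow1, C_pow] at hq'
    rw [hS]
    linear_combination (-(C (2 : k)⁻¹ * C kap⁻¹ * (X + C h))) * hq' +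
      (C (2 : k)⁻¹ * delh n h ^ (m + 1) - C (2 : k)⁻¹ * (X + C h) * C kap) * hcc
  have hD : (X - C tau) ^ m ∣ S * derivative D - C (kap ^ 2) := by
    have hD' : derivative D = delh n h ^ m - del n ^ m := by
      have := hIsD
      unfold IsD at this
      rw [hm2] at this
      exact this
    have hdel : del n = (X - C tau) * (X + C tau) := by
      have h4 : C (4 * n) = (C tau) ^ 2 := by rw [← C_pow, htau]
      unfold del
      linear_combination -h4
    have e1 : S * derivative D - C (kap ^ 2)
        = (X - C tau) ^ p * q - (X - C tau) ^ m * ((X + C tau) ^ m * S) := by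
      rw [hD', hS, hdel, mul_pow]
      rw [← hpow1] at hq
      linear_combination hq
    rw [e1]
    exact dvd_sub ((pow_dvd_pow _ hmp).mul_right _) (Dvd.intro _ rfl)
  have hquad : (X - C tau) ^ p ∣ (U ^ 2 - C h * U + C n) - X * U := by
    refine Dvd.intro (C (2 : k)⁻¹ ^ 2 * C kap⁻¹ ^ 2 * delh n h * q) ?_
    have hS2 : S ^ 2 = delh n h * (C kap ^ 2 + (X - C tau) ^ p * q) := by
      rw [hpow2, hq, C_pow]
    have hdelh : delh n h = (X + C h) ^ 2 - 4 * C n := by
      unfold delh
      rw [C_mul, map_ofNat]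
    have hc4 : (C (2 : k)⁻¹) ^ 2 * 4 = (1 : k[X]) := by
      linear_combination (C (2 : k)⁻¹ * 2 + 1) * hc2
    have e2 : C kap ^ 2 * C kap⁻¹ ^ 2 = (1 : k[X]) := by
      rw [← mul_pow, hcc, one_pow]
    rw [hUdef]
    have hUU : (C (2 : k)⁻¹ * (X + C h + C kap⁻¹ * S)) ^ 2
        - (X + C h) * (C (2 : k)⁻¹ * (X + C h + C kap⁻¹ * S))
        = C (2 : k)⁻¹ ^ 2 * (C kap⁻¹ ^ 2 * S ^ 2 - (X + C h) ^ 2) := by
      linear_combination (C (2 : k)⁻¹ * (X + C h + C kap⁻¹ * S) * (X + C h)) * hc2
    have hfin : (C (2 : k)⁻¹ * (X + C h + C kap⁻¹ * S)) ^ 2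
        - C h * (C (2 : k)⁻¹ * (X + C h + C kap⁻¹ * S)) + C n
        - X * (C (2 : k)⁻¹ * (X + C h + C kap⁻¹ * S))
        = C (2 : k)⁻¹ ^ 2 * (C kap⁻¹ ^ 2 * S ^ 2 - (X + C h) ^ 2) + C n := by
      linear_combination hUU
    rw [hfin, hS2, hdelh]
    linear_combination (-(C (2 : k)⁻¹ ^ 2 * ((X + C h) ^ 2 - 4 * C n))) * e2
      + C n * hc4
  have hUt : U.eval tau ≠ 0 := by
    intro h0
    have h1 : (X - C tau) ∣ (U ^ 2 - C h * U + C n) - X * U :=
      (dvd_pow_self _ hprime.ne_zero).trans hquad
    rw [dvd_iff_isRoot, IsRoot] at h1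
    simp only [eval_sub, eval_add, eval_mul, eval_pow, eval_C, eval_X, h0] at h1
    apply hn
    linear_combination h1
  -- the formal polynomials
  set Q2 : k[X] := X ^ 2 - C h * X + C n with hQ2
  set qq : ℕ → k[X] := fun j => ∑ i ∈ Finset.range (al + 1),
    C (c i j) * (Q2 ^ i * X ^ (al - i)) with hqq
  set P : ℕ → k[X] := fun s => ∑ j ∈ Finset.range (be + 1), C ((qq j).coeff s) * X ^ j with hP
  have hQ2d : Q2.natDegree = 2 := by
    rw [hQ2]; compute_degree!
  have hQ2m : Q2.Monic := by
    rw [hQ2]; monicity!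
  have hterm : ∀ i ≤ al, (Q2 ^ i * X ^ (al - i)).Monic ∧
      (Q2 ^ i * X ^ (al - i)).natDegree = al + i := by
    intro i hi
    have h1 : (Q2 ^ i).Monic := hQ2m.pow i
    have h2 : (X ^ (al - i) : k[X]).Monic := monic_X_pow _
    refine ⟨h1.mul h2, ?_⟩
    rw [h1.natDegree_mul h2, hQ2m.natDegree_pow, natDegree_X_pow, hQ2d]
    omega
  have hqdeg : ∀ j, (qq j).natDegree < 2 * al + 1 := by
    intro j
    rw [Nat.lt_succ_iff]
    apply natDegree_sum_le_of_forall_le
    intro i hi
    rw [Finset.mem_range] at hi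
    refine (natDegree_C_mul_le _ _).trans ?_
    rw [(hterm i (by omega)).2]
    omega
  have hPdeg : ∀ s, (P s).natDegree ≤ be := by
    intro s
    apply natDegree_sum_le_of_forall_le
    intro j hj
    rw [Finset.mem_range] at hj
    exact (natDegree_C_mul_X_pow_le _ _).trans (by omega)
  have hbe : be + 1 ≤ m + 1 := le_trans (by nlinarith [Nat.zero_le al, Nat.zero_le be]) hK
  have hal : 2 * al + 1 ≤ m + 1 := le_trans (by nlinarith [Nat.zero_le al, Nat.zero_le be]) hK
  have hmp' : m + 1 ≤ p := by
    have := hprime.two_le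
    omega
  -- the evaluation
  have hev : ev (2 * al + 1) U D P = ∑ j ∈ Finset.range (be + 1), D ^ j * (qq j).comp U := by
    have h1 : ∀ j, (qq j).comp U = ∑ s ∈ Finset.range (2 * al + 1), C ((qq j).coeff s) * U ^ s := by
      intro j
      exact eval₂_eq_sum_range' C (hqdeg j) U
    unfold ev
    simp only [h1, Finset.mul_sum]
    rw [Finset.sum_comm]
    apply Finset.sum_congr rfl
    intro s _
    simp only [hP]
    rw [Polynomial.sum_comp, Finset.mul_sum]
    apply Finset.sum_congr rfl
    intro j _
    simp only [mul_comp, C_comp, X_pow_comp]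
    ring
  have hqU : ∀ j, (X - C tau) ^ p ∣
      (qq j).comp U - U ^ al * ∑ i ∈ Finset.range (al + 1), C (c i j) * X ^ i := by
    intro j
    have h1 : (qq j).comp U = ∑ i ∈ Finset.range (al + 1),
        C (c i j) * ((U ^ 2 - C h * U + C n) ^ i * U ^ (al - i)) := by
      simp only [hqq]
      rw [Polynomial.sum_comp]
      apply Finset.sum_congr rfl
      intro i _
      simp only [mul_comp, C_comp, pow_comp, X_comp, hQ2, add_comp, sub_comp]
    rw [h1, Finset.mul_sum, ← Finset.sum_sub_distrib]
    apply Finset.dvd_sum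
    intro i hi
    rw [Finset.mem_range] at hi
    have h2 : U ^ al = U ^ i * U ^ (al - i) := by
      rw [← pow_add]; congr 1; omega
    have h3 : C (c i j) * ((U ^ 2 - C h * U + C n) ^ i * U ^ (al - i)) - U ^ al * (C (c i j) * X ^ i)
        = ((U ^ 2 - C h * U + C n) ^ i - (X * U) ^ i) * (C (c i j) * U ^ (al - i)) := by
      rw [h2, mul_pow]; ring
    rw [h3]
    exact (hquad.trans (sub_dvd_pow_sub_pow _ _ i)).mul_right _
  have hKp : (2 * al + 1) * (be + 1) ≤ p := le_trans hK hmp'
  have hmain : (X - C tau) ^ ((2 * al + 1) * (be + 1)) ∣ ev (2 * al + 1) U D P := by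
    have h1 : (X - C tau) ^ ((2 * al + 1) * (be + 1)) ∣ ev (2 * al + 1) U D P
        - U ^ al * ∑ i ∈ Finset.range (al + 1), ∑ j ∈ Finset.range (be + 1),
          C (c i j) * X ^ i * D ^ j := by
      have e3 : ev (2 * al + 1) U D P
          - U ^ al * ∑ i ∈ Finset.range (al + 1), ∑ j ∈ Finset.range (be + 1),
            C (c i j) * X ^ i * D ^ j
          = ∑ j ∈ Finset.range (be + 1), D ^ j * ((qq j).comp U
            - U ^ al * ∑ i ∈ Finset.range (al + 1), C (c i j) * X ^ i) := by
        rw [hev, Finset.sum_comm, Finset.mul_sum, ← Finset.sum_sub_distrib]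
        apply Finset.sum_congr rfl
        intro j _
        rw [mul_sub, ← Finset.sum_mul]
        ring
      rw [e3]
      apply Finset.dvd_sum
      intro j _
      exact (((pow_dvd_pow _ hKp).trans (hqU j))).mul_left _
    have h2 := dvd_add h1 (hdvd.mul_left (U ^ al))
    rwa [sub_add_cancel] at h2
  -- the weight
  have hwt : ∑ s ∈ Finset.range (2 * al + 1), wt (P s) ≤ (2 * al + 1) * (be + 1) := by
    have := Finset.sum_le_card_nsmul (Finset.range (2 * al + 1)) (fun s => wt (P s)) (be + 1)
      (fun s _ => wt_le (hPdeg s))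
    simpa using this
  have h0 := key p m (2 * al + 1) (by omega) tau kap hkap0 S U D hU hD hUt
    (∑ s ∈ Finset.range (2 * al + 1), wt (P s)) P (fun s _ => lt_of_le_of_lt (hPdeg s) (by omega))
    rfl (hwt.trans hK) ((pow_dvd_pow _ hwt).trans hmain)
  -- nonvanishing
  obtain ⟨i0, hi0, j0, hj0, hc0⟩ := hc
  obtain ⟨i1, hi1, hmax⟩ : ∃ i1 ∈ (Finset.range (al + 1)).filter (fun i => c i j0 ≠ 0),
      ∀ i ∈ (Finset.range (al + 1)).filter (fun i => c i j0 ≠ 0), i ≤ i1 := by
    apply Finset.exists_max_image _ (fun i => i)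
    exact ⟨i0, by simp; exact ⟨by omega, hc0⟩⟩
  rw [Finset.mem_filter, Finset.mem_range] at hi1
  have hcoef : (qq j0).coeff (al + i1) = c i1 j0 := by
    simp only [hqq]
    rw [finset_sum_coeff, Finset.sum_eq_single_of_mem i1 (Finset.mem_range.2 hi1.1)]
    · rw [coeff_C_mul]
      have := hterm i1 (by omega)
      have h5 := this.1.coeff_natDegree
      rw [this.2] at h5
      rw [h5, mul_one]
    · intro i hi hne
      rw [Finset.mem_range] at hi
      rw [coeff_C_mul]
      by_cases hci : c i j0 = 0
      · rw [hci, zero_mul]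
      · have hle : i ≤ i1 := hmax i (by simp; exact ⟨by omega, hci⟩)
        rw [coeff_eq_zero_of_natDegree_lt, mul_zero]
        rw [(hterm i (by omega)).2]
        omega
  have hPne : P (al + i1) ≠ 0 := by
    intro hz
    have h6 : (P (al + i1)).coeff j0 = c i1 j0 := by
      simp only [hP]
      rw [finset_sum_coeff, Finset.sum_eq_single_of_mem j0 (Finset.mem_range.2 (by omega))]
      · rw [coeff_C_mul_X_pow, if_pos rfl, hcoef]
      · intro j _ hne
        rw [coeff_C_mul_X_pow, if_neg (Ne.symm hne)]
    rw [hz, coeff_zero] at h6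
    exact hi1.2 h6.symm
  rw [Finset.sum_eq_zero_iff] at h0
  exact hPne (wt_eq_zero (h0 (al + i1) (Finset.mem_range.2 (by omega))))

end Pool.Agent.Helper15.WP
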